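import Pool.Agent.Lib.MP_5d7bff_an.AllP

namespace Pool.Agent.Results.MP_5d7bff_an.EveryExponent

open MeasureTheory

/-- One real Banach space is isomorphic to a subspace of `L_p[0,1]` for every `0 < p < 1` and is
not isomorphic to a subspace of `L_1` of any measure space. -/
theorem result :
    ∃ (X : Type) (_ : NormedAddCommGroup X) (_ : NormedSpace ℝ X), CompleteSpace X ∧
      (∀ p : ℝ, 0 < p → p < 1 →
        ∃ (T : X →ₗ[ℝ] Lp ℝ (ENNReal.ofReal p) (volume.restrict (Set.Icc (0 : ℝ) 1)))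
          (a b : ℝ), 0 < a ∧ a ≤ b ∧ ∀ x, a * ‖x‖ ≤ ‖T x‖ ∧ ‖T x‖ ≤ b * ‖x‖) ∧
      ∀ (Ω : Type) [MeasurableSpace Ω] (ν : Measure Ω),
        ¬ ∃ (S : X →ₗ[ℝ] Lp ℝ 1 ν) (a b : ℝ), 0 < a ∧ a ≤ b ∧
          ∀ x, a * ‖x‖ ≤ ‖S x‖ ∧ ‖S x‖ ≤ b * ‖x‖ :=
  Lib.MP_5d7bff_an.all_p

end Pool.Agent.Results.MP_5d7bff_an.EveryExponent
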